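import Pool.Agent.Helper31.LQ.Goals2

/-!
# Packet LQ-SH3 (MP_6fb600_gt)
-/

set_option autoImplicit false

open MeasureTheory Set
open scoped ENNReal Matrix Pointwise
open Pool.Agent.Helper47.AQ

namespace Pool.Agent.Helper57.LQ

open Pool.Agent.Helper31.LQ

theorem lin_smul {n d : ℕ} (Y : Fin n → Fin d → ℝ) (c : ℝ) (x : Fin n → ℝ) :
    lin Y (c • x) = c • lin Y x := by
  funext a
  show ∑ l, (c * x l) * Y l a = c * ∑ l, x l * Y l a
  rw [Finset.mul_sum]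
  exact Finset.sum_congr rfl fun l _ => mul_assoc _ _ _

theorem gSH3 (hSH1 : Pool.Agent.Helper31.LQ.SH1) : Pool.Agent.Helper31.LQ.SH3 := by
  intro n d hd hdn τ hτ hτ1
  obtain ⟨-, -, hsub, -⟩ := hSH1 n (by omega) τ hτ hτ1
  have hr : 0 < (1 + τ)⁻¹ := inv_pos.2 (by linarith)
  have hpos : 0 < (1 + τ)⁻¹ ^ (d * n) := pow_pos hr _
  have key : ∀ Y : Fin n → Fin d → ℝ, fK d (Kt n τ) Y ≤
      ENNReal.ofReal ((1 + τ) ^ (n * d)) * fK d (D0 n) Y := by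
    intro Y
    have h1 : (1 + τ)⁻¹ • (lin Y '' D0 n) ⊆ lin Y '' Kt n τ := by
      rintro _ ⟨_, ⟨x, hx, rfl⟩, rfl⟩
      refine ⟨(1 + τ)⁻¹ • x, hsub ⟨x, hx, rfl⟩, ?_⟩
      exact lin_smul Y _ x
    have h2 : volume ((1 + τ)⁻¹ • (lin Y '' D0 n)) =
        ENNReal.ofReal ((1 + τ)⁻¹ ^ d) * volume (lin Y '' D0 n) := by
      rw [Measure.addHaar_smul, Module.finrank_fintype_fun_eq_card, Fintype.card_fin,
        abs_of_pos (pow_pos hr _)]
    have h3 : ENNReal.ofReal ((1 + τ)⁻¹ ^ d) * volume (lin Y '' D0 n) ≤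
        volume (lin Y '' Kt n τ) := by
      rw [← h2]
      exact measure_mono h1
    have h4 : ENNReal.ofReal ((1 + τ)⁻¹ ^ (d * n)) * volume (lin Y '' D0 n) ^ n ≤
        volume (lin Y '' Kt n τ) ^ n := by
      rw [pow_mul, ENNReal.ofReal_pow (pow_nonneg hr.le _), ← mul_pow]
      exact pow_le_pow_left₀ zero_le h3 n
    have h5 : ENNReal.ofReal ((1 + τ) ^ (n * d)) =
        (ENNReal.ofReal ((1 + τ)⁻¹ ^ (d * n)))⁻¹ := by
      rw [← ENNReal.ofReal_inv_of_pos hpos, inv_pow, inv_inv, mul_comm n d]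
    unfold fK
    rw [h5, ← ENNReal.mul_inv (Or.inl (ENNReal.ofReal_pos.2 hpos).ne')
      (Or.inl ENNReal.ofReal_ne_top)]
    exact ENNReal.inv_le_inv.2 h4
  unfold IQ
  rw [← lintegral_const_mul' _ _ ENNReal.ofReal_ne_top]
  refine lintegral_mono fun Y => ?_
  show fK d (Kt n τ) Y * eta 1 Y ≤
    ENNReal.ofReal ((1 + τ) ^ (n * d)) * (fK d (D0 n) Y * eta 1 Y)
  rw [← mul_assoc]
  exact mul_le_mul_left (key Y) _

end Pool.Agent.Helper57.LQ
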